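import Pool.Agent.Helper89.Vol4.Goals

/-!
# MP_cd13d2_co, project V47, packet Q22: the planar inequality for the extremal pattern
-/

open Set

namespace Pool.Agent.Helper48.Vol4.PkQ22

open Pool.Agent.Helper89.Vol4

theorem poly1 {L : ℝ} (h0 : 0 ≤ L) (h1 : L ≤ 1) : L ^ 2 * (4 - L) * (2 - L) ≤ 3 := by
  have e : 3 - L ^ 2 * (4 - L) * (2 - L) =
      (1 - L) * (3 * L * (1 - L) + 2 * (1 - L ^ 2) + 1 + L ^ 3) := by ring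
  have h2 : 0 ≤ 1 - L ^ 2 := by nlinarith
  have h3 : 0 ≤ 1 - L := by linarith
  have h4 : 0 ≤ 3 * L * (1 - L) := by positivity
  have h5 : 0 ≤ L ^ 3 := by positivity
  have h6 : 0 ≤ (1 - L) * (3 * L * (1 - L) + 2 * (1 - L ^ 2) + 1 + L ^ 3) :=
    mul_nonneg h3 (by linarith)
  linarith

theorem poly2 {L : ℝ} (h0 : 0 ≤ L) (h1 : L ≤ 1) : L ^ 2 * (4 - L) * (4 - L ^ 2) ≤ 9 := by
  have e : 9 - L ^ 2 * (4 - L) * (4 - L ^ 2) =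
      (1 - L) * (7 * (1 - L ^ 2) + 3 * L * (1 - L ^ 2) + 2 + 6 * L + L ^ 4) := by ring
  have h2 : 0 ≤ 1 - L ^ 2 := by nlinarith
  have h3 : 0 ≤ 1 - L := by linarith
  have h4 : 0 ≤ 3 * L * (1 - L ^ 2) := by positivity
  have h5 : 0 ≤ L ^ 4 := by positivity
  have h6 : 0 ≤ (1 - L) * (7 * (1 - L ^ 2) + 3 * L * (1 - L ^ 2) + 2 + 6 * L + L ^ 4) :=
    mul_nonneg h3 (by linarith)
  linarith

theorem cond1 {α b0 L : ℝ} (hα2 : 3 * α ^ 2 = L ^ 2 * (4 - L)) (hb : b0 ^ 2 ≤ 1 - L / 2)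
    (h0 : 0 ≤ L) (h1 : L ≤ 1) : (α * (b0 / 2)) ^ 2 ≤ 1 / 8 := by
  have h3 : α ^ 2 * b0 ^ 2 ≤ α ^ 2 * (1 - L / 2) := mul_le_mul_of_nonneg_left hb (by positivity)
  have h4 : α ^ 2 * (1 - L / 2) = L ^ 2 * (4 - L) * (2 - L) / 6 := by
    linear_combination ((1 - L / 2) / 3) * hα2
  have h5 := poly1 h0 h1
  have h6 : (α * (b0 / 2)) ^ 2 = α ^ 2 * b0 ^ 2 / 4 := by ring
  rw [h6]
  linarith

theorem cond2 {α x y z L : ℝ} (hα2 : 3 * α ^ 2 = L ^ 2 * (4 - L))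
    (hM : (x + y) ^ 2 + z ^ 2 ≤ 1 - L ^ 2 / 4) (h0 : 0 ≤ L) (h1 : L ≤ 1) :
    (α * x + α * y) ^ 2 + (α * z) ^ 2 ≤ 3 / 4 := by
  have h2 : (α * x + α * y) ^ 2 + (α * z) ^ 2 = α ^ 2 * ((x + y) ^ 2 + z ^ 2) := by ring
  have h3 : α ^ 2 * ((x + y) ^ 2 + z ^ 2) ≤ α ^ 2 * (1 - L ^ 2 / 4) :=
    mul_le_mul_of_nonneg_left hM (by positivity)
  have h4 : α ^ 2 * (1 - L ^ 2 / 4) = L ^ 2 * (4 - L) * (4 - L ^ 2) / 12 := by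
    linear_combination ((1 - L ^ 2 / 4) / 3) * hα2
  have h5 := poly2 h0 h1
  rw [h2]
  linarith

theorem cond3 {β x y : ℝ} (hβ1 : β ^ 2 ≤ 1) (h : x ^ 2 + y ^ 2 ≤ 1) :
    (β * |x|) ^ 2 + (β * |y|) ^ 2 ≤ 1 := by
  have h2 : (β * |x|) ^ 2 + (β * |y|) ^ 2 = β ^ 2 * (x ^ 2 + y ^ 2) := by
    rw [mul_pow, mul_pow, sq_abs, sq_abs]; ring
  rw [h2]
  calc β ^ 2 * (x ^ 2 + y ^ 2) ≤ 1 * 1 := mul_le_mul hβ1 h (by positivity) zero_le_one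
    _ = 1 := one_mul 1

theorem cond4 {α β L b0 x y s : ℝ} (hα0 : 0 ≤ α) (hβ0 : 0 < β) (hb0 : 0 ≤ b0) (hαβ : α ≤ β)
    (hβ2 : β ^ 2 * (4 - L) = 3) (hQ : s ^ 2 + (x ^ 2 + y ^ 2) + b0 ^ 2 + 2 * b0 * |x| ≤ 4 - L) :
    (β * |s|) ^ 2 + (β * |x|) ^ 2 + (β * |y|) ^ 2 + 4 * (α * (b0 / 2)) ^ 2 +
      4 * (α * (b0 / 2)) * (β * |x|) ≤ 3 := by
  have hb : 0 ≤ b0 * |x| := by positivity
  have e1 : (β * |s|) ^ 2 + (β * |x|) ^ 2 + (β * |y|) ^ 2 +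
      4 * (α * (b0 / 2)) ^ 2 + 4 * (α * (b0 / 2)) * (β * |x|) =
      β ^ 2 * (s ^ 2 + (x ^ 2 + y ^ 2)) + α ^ 2 * b0 ^ 2 + 2 * ((α * β) * (b0 * |x|)) := by
    rw [mul_pow, mul_pow, mul_pow, sq_abs, sq_abs, sq_abs]; ring
  have h1 : α ^ 2 * b0 ^ 2 ≤ β ^ 2 * b0 ^ 2 :=
    mul_le_mul_of_nonneg_right (pow_le_pow_left₀ hα0 hαβ 2) (by positivity)
  have h2 : (α * β) * (b0 * |x|) ≤ β ^ 2 * (b0 * |x|) := by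
    refine mul_le_mul_of_nonneg_right ?_ hb
    rw [pow_two]
    exact mul_le_mul_of_nonneg_right hαβ hβ0.le
  have h3 : β ^ 2 * (s ^ 2 + (x ^ 2 + y ^ 2) + b0 ^ 2 + 2 * b0 * |x|) ≤ β ^ 2 * (4 - L) :=
    mul_le_mul_of_nonneg_left hQ (by positivity)
  have e2 : β ^ 2 * (s ^ 2 + (x ^ 2 + y ^ 2) + b0 ^ 2 + 2 * b0 * |x|) =
      β ^ 2 * (s ^ 2 + (x ^ 2 + y ^ 2)) + β ^ 2 * b0 ^ 2 + 2 * (β ^ 2 * (b0 * |x|)) := by ring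
  rw [e2, hβ2] at h3
  rw [e1]
  linarith

theorem hQ_aux {L l1 l2 b0 u0 u1 w0 w1 : ℝ} (hsum : 2 * L ≤ l1 ^ 2 + l2 ^ 2)
    (hu : u0 ^ 2 + u1 ^ 2 ≤ 1 - l1 ^ 2 / 4) (hw : w0 ^ 2 + w1 ^ 2 ≤ 1 - l1 ^ 2 / 4)
    (hub : (u0 - b0) ^ 2 + u1 ^ 2 ≤ 1 - l2 ^ 2 / 4) (hwb : (w0 - b0) ^ 2 + w1 ^ 2 ≤ 1 - l2 ^ 2 / 4) :
    (u1 + w1) ^ 2 + ((u0 - w0) ^ 2 + (u1 - w1) ^ 2) + b0 ^ 2 + 2 * b0 * |u0 - w0| ≤ 4 - L := by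
  have hs := sq_nonneg (u0 + w0 - b0)
  have ea : (u0 + w0 - b0) ^ 2 + ((u1 + w1) ^ 2 + ((u0 - w0) ^ 2 + (u1 - w1) ^ 2) + b0 ^ 2 +
      2 * b0 * (u0 - w0)) = 2 * ((w0 - b0) ^ 2 + w1 ^ 2) + 2 * (u0 ^ 2 + u1 ^ 2) := by ring
  have eb : (u0 + w0 - b0) ^ 2 + ((u1 + w1) ^ 2 + ((u0 - w0) ^ 2 + (u1 - w1) ^ 2) + b0 ^ 2 +
      2 * b0 * (-(u0 - w0))) = 2 * ((u0 - b0) ^ 2 + u1 ^ 2) + 2 * (w0 ^ 2 + w1 ^ 2) := by ring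
  rcases abs_cases (u0 - w0) with ⟨e, _⟩ | ⟨e, _⟩ <;> rw [e] <;> linarith

theorem hM_aux {L l1 l2 b0 v0 v1 : ℝ} (hl1s : L ^ 2 ≤ l1 ^ 2) (hl2s : L ^ 2 ≤ l2 ^ 2)
    (hv : v0 ^ 2 + v1 ^ 2 ≤ 1 - l1 ^ 2 / 4) (hvb : (v0 - b0) ^ 2 + v1 ^ 2 ≤ 1 - l2 ^ 2 / 4) :
    (|b0 / 2 - v0| + b0 / 2) ^ 2 + |v1| ^ 2 ≤ 1 - L ^ 2 / 4 := by
  rw [sq_abs]
  have ea : (b0 / 2 - v0 + b0 / 2) ^ 2 = (v0 - b0) ^ 2 := by ring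
  have eb : (-(b0 / 2 - v0) + b0 / 2) ^ 2 = v0 ^ 2 := by ring
  rcases abs_cases (b0 / 2 - v0) with ⟨e, _⟩ | ⟨e, _⟩ <;> rw [e]
  · rw [ea]; linarith
  · rw [eb]; linarith

theorem thm (h : G_J47) : G_Q22 := by
  intro C hC l1 l2 b0 u0 u1 v0 v1 w0 w1 hl10 hl11 hl20 hl21 hb0 hu hv hw hub hvb hwb hb2
    huv huw hvw
  obtain ⟨L, hL⟩ : ∃ L : ℝ, L = l1 * l2 := ⟨_, rfl⟩
  have hL0 : 0 ≤ L := by rw [hL]; positivity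
  have hLl1 : L ≤ l1 := by rw [hL]; exact mul_le_of_le_one_right hl10 hl21
  have hLl2 : L ≤ l2 := by rw [hL]; exact mul_le_of_le_one_left hl20 hl11
  have hL1 : L ≤ 1 := hLl1.trans hl11
  have h4L : 0 < 4 - L := by linarith
  obtain ⟨β, hβ⟩ : ∃ β : ℝ, β = Real.sqrt (3 / (4 - L)) := ⟨_, rfl⟩
  have hβ0 : 0 < β := by rw [hβ]; exact Real.sqrt_pos.2 (by positivity)
  have hβs : β ^ 2 = 3 / (4 - L) := by rw [hβ, Real.sq_sqrt (by positivity)]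
  have hβ2 : β ^ 2 * (4 - L) = 3 := by rw [hβs, div_mul_cancel₀ _ h4L.ne']
  obtain ⟨α, hα⟩ : ∃ α : ℝ, α = L / β := ⟨_, rfl⟩
  have hαβ : α * β = L := by rw [hα, div_mul_cancel₀ _ hβ0.ne']
  have hα0 : 0 ≤ α := by rw [hα]; positivity
  have hα2 : 3 * α ^ 2 = L ^ 2 * (4 - L) := by
    calc 3 * α ^ 2 = (β ^ 2 * (4 - L)) * α ^ 2 := by rw [hβ2]
      _ = (α * β) ^ 2 * (4 - L) := by ring
      _ = _ := by rw [hαβ]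
  have hβ1 : β ^ 2 ≤ 1 := by rw [hβs, div_le_one h4L]; linarith
  have hαleβ : α ≤ β := by
    rw [hα, div_le_iff₀ hβ0, ← pow_two, hβs, le_div_iff₀ h4L]
    have h1 : 0 ≤ (1 - L) * (3 - L) := mul_nonneg (by linarith) (by linarith)
    have h2 : (1 - L) * (3 - L) = 3 - L * (4 - L) := by ring
    linarith
  have hsum : 2 * L ≤ l1 ^ 2 + l2 ^ 2 := by
    have h1 := sq_nonneg (l1 - l2)
    have h2 : (l1 - l2) ^ 2 = l1 ^ 2 + l2 ^ 2 - 2 * (l1 * l2) := by ring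
    rw [hL]
    linarith
  have hl1s : L ^ 2 ≤ l1 ^ 2 := pow_le_pow_left₀ hL0 hLl1 2
  have hl2s : L ^ 2 ≤ l2 ^ 2 := pow_le_pow_left₀ hL0 hLl2 2
  have hQ := hQ_aux hsum hu hw hub hwb
  have hM := hM_aux hl1s hl2s hv hvb
  have hb3 : b0 ^ 2 ≤ 1 - L / 2 := by linarith
  have key := h C hC (α * (b0 / 2)) (α * |b0 / 2 - v0|) (α * |v1|) (β * |u0 - w0|)
    (β * |u1 - w1|) (β * |u1 + w1|) (by positivity) (cond1 hα2 hb3 hL0 hL1) (by positivity)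
    (by positivity) (by positivity) (by positivity) (by positivity) (cond2 hα2 hM hL0 hL1)
    (cond3 hβ1 huw) (cond4 hα0 hβ0 hb0 hαleβ hβ2 hQ)
  have e1 : α * |b0 / 2 - v0| * (β * |u1 - w1|) + α * |v1| * (β * |u0 - w0|) +
      α * (b0 / 2) * (β * |u1 + w1|) =
      L * (|b0 / 2 - v0| * |u1 - w1| + |v1| * |u0 - w0| + b0 / 2 * |u1 + w1|) := by
    rw [← hαβ]; ring
  rw [e1] at key
  refine le_trans ?_ key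
  rw [← hL]
  refine mul_le_mul_of_nonneg_left ?_ hL0
  have e2 : b0 * u1 + (u0 * v1 - u1 * v0) + (v0 * w1 - v1 * w0) =
      (b0 / 2 - v0) * (u1 - w1) + v1 * (u0 - w0) + b0 / 2 * (u1 + w1) := by ring
  rw [e2]
  refine (abs_add_le _ _).trans ?_
  refine add_le_add ((abs_add_le _ _).trans ?_) ?_
  · rw [abs_mul, abs_mul]
  · rw [abs_mul, abs_of_nonneg (by positivity : (0 : ℝ) ≤ b0 / 2)]

end Pool.Agent.Helper48.Vol4.PkQ22
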